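import Pool.Agent.K1H51.DL.Stm
import Pool.Agent.H437R2.A1
import Pool.Agent.Helper625.Planch

set_option autoImplicit false

/-!
Project DL (helper51), piece OP: the operator with kernel `|ζ(1/2 + iβt)|²` minus the main term.
-/

namespace Pool.Agent.K1H26.DL

open MeasureTheory Set Filter Topology FourierTransform SchwartzMap
open scoped ContDiff
open Pool.Agent.Y969.GP (ff)
open Pool.Agent.K1H51.DL

noncomputable section

/-! ### change of variables -/

lemma image_exp {T : ℝ} (hT : 0 < T) : (fun x : ℝ => T * Real.exp x) '' univ = Ioi 0 := by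
  ext u
  simp only [image_univ, mem_range, mem_Ioi]
  constructor
  · rintro ⟨x, rfl⟩
    positivity
  · intro hu
    refine ⟨Real.log (u / T), ?_⟩
    rw [Real.exp_log (by positivity)]
    field_simp

lemma inj_exp {T : ℝ} (hT : 0 < T) : InjOn (fun x : ℝ => T * Real.exp x) univ := by
  intro x _ y _ h
  exact Real.exp_injective (mul_left_cancel₀ hT.ne' h)

lemma deriv_exp' (T : ℝ) (x : ℝ) :
    HasDerivWithinAt (fun x : ℝ => T * Real.exp x) (T * Real.exp x) univ x :=
  ((Real.hasDerivAt_exp x).const_mul T).hasDerivWithinAt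

lemma cov {E : Type*} [NormedAddCommGroup E] [NormedSpace ℝ E] {T : ℝ} (hT : 0 < T) (g : ℝ → E) :
    ∫ u in Ioi (0 : ℝ), g u = ∫ x, (T * Real.exp x) • g (T * Real.exp x) := by
  rw [← image_exp hT, integral_image_eq_integral_abs_deriv_smul MeasurableSet.univ
    (fun x _ => deriv_exp' T x) (inj_exp hT), setIntegral_univ]
  congr 1
  ext x
  rw [abs_of_pos (by positivity)]

lemma covI {E : Type*} [NormedAddCommGroup E] [NormedSpace ℝ E] {T : ℝ} (hT : 0 < T) (g : ℝ → E) :
    IntegrableOn g (Ioi (0 : ℝ)) ↔ Integrable (fun x => (T * Real.exp x) • g (T * Real.exp x)) := by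
  rw [← image_exp hT, integrableOn_image_iff_integrableOn_abs_deriv_smul MeasurableSet.univ
    (fun x _ => deriv_exp' T x) (inj_exp hT), integrableOn_univ]
  have : (fun x => |T * Real.exp x| • g (T * Real.exp x)) =
      fun x => (T * Real.exp x) • g (T * Real.exp x) := by
    ext x
    rw [abs_of_pos (by positivity)]
  rw [this]

/-! ### bounds for zeta -/

/-- `|ζ(1/2 + iu)|²` minus the main term -/
def Df (u : ℝ) : ℝ := ff u - Mz u

lemma ff_cont : Continuous ff := by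
  unfold ff
  have : Continuous fun u : ℝ => riemannZeta (1 / 2 + Complex.I * u) := by
    rw [continuous_iff_continuousAt]
    intro u
    have h1 : (1 / 2 + Complex.I * u : ℂ) ≠ 1 := by
      intro h
      have := congrArg Complex.re h
      simp at this
    have h2 := (differentiableAt_riemannZeta h1).continuousAt
    exact ContinuousAt.comp (f := fun u : ℝ => (1 / 2 + Complex.I * u : ℂ)) h2 (by fun_prop)
  exact this.norm.pow 2

lemma Mz_meas : Measurable Mz := by
  unfold Mz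
  exact (Real.measurable_log.comp (measurable_id.div_const _)).add_const _

lemma Df_meas : Measurable Df := ff_cont.measurable.sub Mz_meas

lemma Df_cont : ContinuousOn Df (Ioi 0) := by
  unfold Df Mz
  refine ff_cont.continuousOn.sub (ContinuousOn.add (ContinuousOn.log (by fun_prop) ?_) continuousOn_const)
  intro u hu
  have : (0 : ℝ) < u := hu
  positivity

lemma ff_le (u : ℝ) : ff u ≤ 36 * (|u| + 3 / 2) ^ 4 := by
  unfold ff
  have hs : (1 / 2 + Complex.I * u : ℂ).re = 1 / 2 := by simp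
  have hi : (1 / 2 + Complex.I * u : ℂ).im = u := by simp
  have h1 : (1 / 2 + Complex.I * u : ℂ) ≠ 1 := by
    intro h
    have := congrArg Complex.re h
    rw [hs] at this
    norm_num at this
  have h2 := Pool.Agent.H437R2.z1_norm_le (s := 1 / 2 + Complex.I * u) (by rw [hs])
  rw [Pool.Agent.H437R2.z1_of_ne h1, norm_mul] at h2
  have h3 : 1 / 2 ≤ ‖(1 / 2 + Complex.I * u : ℂ) - 1‖ := by
    have := Complex.abs_re_le_norm ((1 / 2 + Complex.I * u : ℂ) - 1)
    rw [Complex.sub_re, hs, Complex.one_re] at this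
    norm_num at this
    linarith
  have h4 : ‖(1 / 2 + Complex.I * u : ℂ)‖ ≤ 1 / 2 + |u| := by
    refine (norm_add_le _ _).trans ?_
    rw [norm_mul, Complex.norm_I, one_mul, Complex.norm_real, Real.norm_eq_abs]
    norm_num
  have h5 : (‖(1 / 2 + Complex.I * u : ℂ)‖ + 1) ^ 2 ≤ (|u| + 3 / 2) ^ 2 := by
    have := norm_nonneg (1 / 2 + Complex.I * u : ℂ)
    exact pow_le_pow_left₀ (by linarith) (by linarith) 2
  have h6 : ‖riemannZeta (1 / 2 + Complex.I * u)‖ ≤ 6 * (|u| + 3 / 2) ^ 2 := by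
    nlinarith [norm_nonneg (riemannZeta (1 / 2 + Complex.I * u))]
  calc ‖riemannZeta (1 / 2 + Complex.I * u)‖ ^ 2 ≤ (6 * (|u| + 3 / 2) ^ 2) ^ 2 := by gcongr
    _ = 36 * (|u| + 3 / 2) ^ 4 := by ring

lemma ff_nonneg (u : ℝ) : 0 ≤ ff u := by unfold ff; positivity

lemma Df_le : ∃ K : ℝ, 0 < K ∧ ∀ u : ℝ, 0 < u → |Df u| ≤ K * (u⁻¹ + u ^ 4) := by
  refine ⟨36 * 100 + |Real.log (2 * Real.pi)| + 2 * |Real.eulerMascheroniConstant| + 2,
    by positivity, fun u hu => ?_⟩
  have h1 := ff_le u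
  rw [abs_of_pos hu] at h1
  have hu1 : 1 ≤ u⁻¹ + u ^ 4 := by
    rcases le_total u 1 with h | h
    · have : 1 ≤ u⁻¹ := (one_le_inv₀ hu).mpr h
      have : 0 ≤ u ^ 4 := by positivity
      linarith
    · have : 1 ≤ u ^ 4 := one_le_pow₀ h
      have : 0 ≤ u⁻¹ := by positivity
      linarith
  have h2 : (u + 3 / 2) ^ 4 ≤ 100 * (u⁻¹ + u ^ 4) := by
    rcases le_total u 1 with h | h
    · have h3 : (u + 3 / 2) ^ 4 ≤ (5 / 2) ^ 4 := by gcongr; linarith
      have : ((5 : ℝ) / 2) ^ 4 ≤ 100 := by norm_num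
      nlinarith
    · have h3 : (u + 3 / 2) ^ 4 ≤ (5 / 2 * u) ^ 4 := by gcongr; linarith
      have h4 : (5 / 2 * u) ^ 4 = (5 / 2) ^ 4 * u ^ 4 := by ring
      have : ((5 : ℝ) / 2) ^ 4 ≤ 100 := by norm_num
      have h5 : 0 ≤ u ^ 4 := by positivity
      have h6 : 0 ≤ u⁻¹ := by positivity
      nlinarith
  have h3 : |Real.log u| ≤ u⁻¹ + u ^ 4 + 1 := by
    rw [abs_le]
    have h4 : Real.log u ≤ u - 1 := Real.log_le_sub_one_of_pos hu
    have h5 : Real.log u⁻¹ ≤ u⁻¹ - 1 := Real.log_le_sub_one_of_pos (by positivity)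
    rw [Real.log_inv] at h5
    have h6 : 0 ≤ u ^ 4 := by positivity
    have h7 : 0 ≤ u⁻¹ := by positivity
    have h8 : u ≤ u ^ 4 + 1 := by nlinarith [sq_nonneg (u ^ 2 - 1), sq_nonneg (u - 1)]
    constructor <;> linarith
  have h4 : |Mz u| ≤ |Real.log u| + |Real.log (2 * Real.pi)| + 2 * |Real.eulerMascheroniConstant| := by
    unfold Mz
    rw [Real.log_div hu.ne' (by positivity)]
    refine (abs_add_le _ _).trans ?_
    rw [abs_mul, abs_two]
    linarith [abs_sub (Real.log u) (Real.log (2 * Real.pi))]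
  unfold Df
  refine (abs_sub _ _).trans ?_
  rw [abs_of_nonneg (ff_nonneg u)]
  have h5 : 0 ≤ |Real.log (2 * Real.pi)| := abs_nonneg _
  have h6 : 0 ≤ |Real.eulerMascheroniConstant| := abs_nonneg _
  nlinarith

/-- the integrand of `eh` without the exponential -/
def hf (T u : ℝ) : ℝ := Df u * W T u / u

lemma hf_int {T : ℝ} (hT : 0 < T) : IntegrableOn (hf T) (Ioi 0) := by
  obtain ⟨K, hK, hD⟩ := Df_le
  have h1 : IntegrableOn (fun u : ℝ => u ^ (2 : ℝ) * Real.exp (-(1 / T) * u ^ (1 : ℝ))) (Ioi 0) :=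
    integrableOn_rpow_mul_exp_neg_mul_rpow (by norm_num) one_pos (by positivity)
  have h2 : IntegrableOn (fun u : ℝ => u ^ (7 : ℝ) * Real.exp (-(1 / T) * u ^ (1 : ℝ))) (Ioi 0) :=
    integrableOn_rpow_mul_exp_neg_mul_rpow (by norm_num) one_pos (by positivity)
  have h3 := (h1.add h2).const_mul (K / T ^ 4)
  refine Integrable.mono' h3 ?_ ?_
  · unfold hf W
    exact (((Df_meas.mul (by fun_prop)).div measurable_id)).aestronglyMeasurable
  · rw [ae_restrict_iff' measurableSet_Ioi]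
    filter_upwards with u hu
    have hu0 : (0 : ℝ) < u := hu
    unfold hf W
    simp only [Pi.add_apply]
    rw [Real.norm_eq_abs, abs_div, abs_mul, abs_of_pos hu0,
      abs_of_nonneg (show 0 ≤ (u / T) ^ 4 * Real.exp (-(u / T)) by positivity)]
    have e1 : Real.exp (-(1 / T) * u ^ (1 : ℝ)) = Real.exp (-(u / T)) := by
      rw [Real.rpow_one]
      congr 1
      ring
    have e2 : u ^ (2 : ℝ) = u ^ 2 := by rw [← Real.rpow_natCast]; norm_num
    have e3 : u ^ (7 : ℝ) = u ^ 7 := by rw [← Real.rpow_natCast]; norm_num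
    rw [e1, e2, e3]
    calc |Df u| * ((u / T) ^ 4 * Real.exp (-(u / T))) / u
        ≤ (K * (u⁻¹ + u ^ 4)) * ((u / T) ^ 4 * Real.exp (-(u / T))) / u := by
          have := hD u hu0
          gcongr
      _ = K / T ^ 4 * (u ^ 2 * Real.exp (-(u / T)) + u ^ 7 * Real.exp (-(u / T))) := by
          field_simp

/-! ### the kernel in logarithmic variables -/

lemma W_scale {T : ℝ} (hT : 0 < T) (v : ℝ) : W T (T * v) = W 1 v := by
  unfold W
  rw [mul_div_cancel_left₀ _ hT.ne', div_one]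

/-- the weighted kernel in the variable `x`, `u = T e^x` -/
def eT (T x : ℝ) : ℂ := ((Df (T * Real.exp x) * W 1 (Real.exp x) : ℝ) : ℂ)

lemma eT_eq {T : ℝ} (hT : 0 < T) (x : ℝ) :
    eT T x = (T * Real.exp x) • ((hf T (T * Real.exp x) : ℝ) : ℂ) := by
  unfold eT hf
  rw [W_scale hT, Complex.real_smul, ← Complex.ofReal_mul]
  congr 1
  have : T * Real.exp x ≠ 0 := by positivity
  field_simp

lemma eT_int {T : ℝ} (hT : 0 < T) : Integrable (eT T) := by
  have h := (covI hT (fun u => ((hf T u : ℝ) : ℂ))).mp (hf_int hT).ofReal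
  refine h.congr (Eventually.of_forall fun x => ?_)
  exact (eT_eq hT x).symm

lemma eT_cont {T : ℝ} (hT : 0 < T) : Continuous (eT T) := by
  unfold eT W
  refine Complex.continuous_ofReal.comp (Continuous.mul ?_ (by fun_prop))
  rw [← continuousOn_univ]
  refine Df_cont.comp (by fun_prop) fun x _ => ?_
  have : 0 < T * Real.exp x := by positivity
  exact this

/-- the twisted means are the Fourier transform of `eT`, up to a unimodular factor -/
lemma eT_four {T : ℝ} (hT : 0 < T) (y : ℝ) :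
    ‖∫ x, Complex.exp (-(Complex.I * ((y * x : ℝ) : ℂ))) * eT T x‖ = ‖eh T y‖ := by
  have h1 : eh T y = ∫ u in Ioi (0 : ℝ), ((hf T u : ℝ) : ℂ) *
      Complex.exp (-(Complex.I * ((y * Real.log u : ℝ) : ℂ))) := rfl
  rw [h1, cov hT]
  have h2 : (fun x : ℝ => (T * Real.exp x) • (((hf T (T * Real.exp x) : ℝ) : ℂ) *
      Complex.exp (-(Complex.I * ((y * Real.log (T * Real.exp x) : ℝ) : ℂ))))) =
      fun x : ℝ => Complex.exp (-(Complex.I * ((y * Real.log T : ℝ) : ℂ))) *
        (Complex.exp (-(Complex.I * ((y * x : ℝ) : ℂ))) * eT T x) := by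
    ext x
    rw [eT_eq hT, Real.log_mul hT.ne' (Real.exp_pos x).ne', Real.log_exp]
    have : Complex.exp (-(Complex.I * ((y * (Real.log T + x) : ℝ) : ℂ))) =
        Complex.exp (-(Complex.I * ((y * Real.log T : ℝ) : ℂ))) *
          Complex.exp (-(Complex.I * ((y * x : ℝ) : ℂ))) := by
      rw [← Complex.exp_add]
      congr 1
      push_cast
      ring
    rw [this]
    simp only [Complex.real_smul]
    ring
  rw [h2, integral_const_mul, norm_mul]
  have h3 : ‖Complex.exp (-(Complex.I * ((y * Real.log T : ℝ) : ℂ)))‖ = 1 := by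
    rw [show -(Complex.I * ((y * Real.log T : ℝ) : ℂ)) = ((-(y * Real.log T) : ℝ) : ℂ) * Complex.I by
      push_cast; ring]
    exact Complex.norm_exp_ofReal_mul_I _
  rw [h3, one_mul]

/-! ### the smooth cutoff -/

lemma exists_psi {p q : ℝ} (hpq : p < q) : ∃ (g : ℝ → ℂ) (ψ : 𝓢(ℝ, ℂ)),
    Continuous g ∧ HasCompactSupport g ∧ (∀ x, 𝓕 (ψ : ℝ → ℂ) x = g x) ∧
    ∀ x, p ≤ x → x ≤ q → ((W 1 (Real.exp x) : ℝ) : ℂ) * g x = 1 := by
  let χ : ContDiffBump ((p + q) / 2 : ℝ) := ⟨(q - p) / 2, (q - p) / 2 + 1, by linarith, by linarith⟩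
  let g0 : ℝ → ℝ := fun x => χ x * Real.exp (-4 * x + Real.exp x)
  have hg0 : ContDiff ℝ ∞ g0 := by
    have h1 : ContDiff ℝ ∞ χ := χ.contDiff
    have h2 : ContDiff ℝ ∞ fun x : ℝ => Real.exp (-4 * x + Real.exp x) := by fun_prop
    exact h1.mul h2
  have hc0 : HasCompactSupport g0 := χ.hasCompactSupport.mul_right
  have hg₁ : HasCompactSupport (Complex.ofRealCLM ∘ g0) := hc0.comp_left rfl
  have hg₂ : ContDiff ℝ ∞ (Complex.ofRealCLM ∘ g0) := Complex.ofRealCLM.contDiff.comp hg0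
  refine ⟨Complex.ofRealCLM ∘ g0, 𝓕⁻ (hg₁.toSchwartzMap hg₂), hg₂.continuous, hg₁, fun x => ?_, ?_⟩
  · rw [← SchwartzMap.fourier_coe, FourierTransform.fourier_fourierInv_eq]
    rfl
  · intro x hx1 hx2
    have h1 : χ x = 1 := by
      apply χ.one_of_mem_closedBall
      rw [Metric.mem_closedBall, Real.dist_eq, abs_le]
      show -((q - p) / 2) ≤ _ ∧ _ ≤ (q - p) / 2
      constructor <;> linarith
    show ((W 1 (Real.exp x) : ℝ) : ℂ) * ((g0 x : ℝ) : ℂ) = 1
    rw [← Complex.ofReal_mul]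
    have h2 : W 1 (Real.exp x) * g0 x = 1 := by
      show W 1 (Real.exp x) * (χ x * Real.exp (-4 * x + Real.exp x)) = 1
      rw [h1, one_mul]
      unfold W
      rw [div_one, ← Real.exp_nat_mul, ← Real.exp_add, ← Real.exp_add]
      rw [Real.exp_eq_one_iff]
      push_cast
      ring
    rw [h2, Complex.ofReal_one]

/-- the Fourier transform of the truncated kernel -/
lemma four_le {T Λ : ℝ} (hT : 0 < T) (hΛ : ∀ y, ‖eh T y‖ ≤ Λ) (g : ℝ → ℂ) (ψ : 𝓢(ℝ, ℂ))
    (hψ : ∀ x, 𝓕 (ψ : ℝ → ℂ) x = g x) (w : ℝ) :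
    ‖𝓕 (fun x => eT T x * g x) w‖ ≤ Λ * ∫ x, ‖ψ x‖ := by
  have hi : Integrable (fun v : ℝ => Complex.exp (↑(-2 * Real.pi * v * w) * Complex.I) * eT T v) := by
    refine (eT_int hT).bdd_mul (c := 1) (by fun_prop) ?_
    exact Eventually.of_forall fun x => by rw [Complex.norm_exp_ofReal_mul_I]
  have h1 : 𝓕 (fun x => eT T x * g x) w = ∫ v : ℝ, 𝓕 (ψ : ℝ → ℂ) v •
      (Complex.exp (↑(-2 * Real.pi * v * w) * Complex.I) * eT T v) := by
    rw [Real.fourier_real_eq_integral_exp_smul]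
    refine integral_congr_ae (Eventually.of_forall fun v => ?_)
    simp only [smul_eq_mul, hψ]
    ring
  have h2 := VectorFourier.integral_fourierIntegral_smul_eq_flip (L := innerₗ ℝ)
      Real.continuous_fourierChar continuous_inner ψ.integrable hi (μ := volume) (ν := volume)
  simp only [flip_innerₗ] at h2
  have h3 : ∫ v : ℝ, 𝓕 (ψ : ℝ → ℂ) v •
      (Complex.exp (↑(-2 * Real.pi * v * w) * Complex.I) * eT T v) =
      ∫ x, ψ x • 𝓕 (fun v : ℝ => Complex.exp (↑(-2 * Real.pi * v * w) * Complex.I) * eT T v) x := h2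
  rw [h1, h3]
  refine (norm_integral_le_integral_norm _).trans ?_
  rw [← integral_const_mul]
  refine integral_mono_of_nonneg (Eventually.of_forall fun x => norm_nonneg _)
    (ψ.integrable.norm.const_mul Λ) (Eventually.of_forall fun x => ?_)
  simp only [norm_smul]
  rw [mul_comm]
  refine mul_le_mul_of_nonneg_right ?_ (norm_nonneg _)
  rw [Real.fourier_real_eq_integral_exp_smul]
  have h4 : (fun v : ℝ => Complex.exp (↑(-2 * Real.pi * v * x) * Complex.I) •
      (Complex.exp (↑(-2 * Real.pi * v * w) * Complex.I) * eT T v)) =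
      fun v : ℝ => Complex.exp (-(Complex.I * ((2 * Real.pi * (x + w) * v : ℝ) : ℂ))) * eT T v := by
    ext v
    rw [smul_eq_mul, ← mul_assoc, ← Complex.exp_add]
    congr 2
    push_cast
    ring
  rw [h4, eT_four hT]
  exact hΛ _

/-! ### the function `F` in logarithmic variables -/

/-- the function `F` on `[T, 2T]`, zero elsewhere -/
def Fi (T : ℝ) (F : ℝ → ℂ) : ℝ → ℂ := indicator (Icc T (2 * T)) F

/-- in logarithmic variables -/
def fl (T : ℝ) (F : ℝ → ℂ) (x : ℝ) : ℂ := (T * Real.exp x) • Fi T F (T * Real.exp x)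

lemma F_int {T : ℝ} {F : ℝ → ℂ} (hF : Measurable F)
    (h2 : IntegrableOn (fun t => ‖F t‖ ^ 2) (Icc T (2 * T))) : IntegrableOn F (Icc T (2 * T)) := by
  have h := (memLp_two_iff_integrable_sq_norm (μ := volume.restrict (Icc T (2 * T)))
    hF.aestronglyMeasurable).mpr h2
  exact h.integrable one_le_two

lemma fl_int {T : ℝ} (hT : 0 < T) {F : ℝ → ℂ} (hF : Measurable F)
    (h2 : IntegrableOn (fun t => ‖F t‖ ^ 2) (Icc T (2 * T))) : Integrable (fl T F) := by
  refine (covI hT (Fi T F)).mp ?_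
  exact ((integrable_indicator_iff measurableSet_Icc).mpr (F_int hF h2)).integrableOn

lemma sq_indicator (T : ℝ) (F : ℝ → ℂ) (u : ℝ) :
    u * ‖Fi T F u‖ ^ 2 = indicator (Icc T (2 * T)) (fun u => u * ‖F u‖ ^ 2) u := by
  unfold Fi
  by_cases h : u ∈ Icc T (2 * T)
  · rw [indicator_of_mem h, indicator_of_mem h]
  · rw [indicator_of_notMem h, indicator_of_notMem h]
    simp

lemma uF_int {T : ℝ} (hT : 0 < T) {F : ℝ → ℂ} (hF : Measurable F)
    (h2 : IntegrableOn (fun t => ‖F t‖ ^ 2) (Icc T (2 * T))) :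
    IntegrableOn (fun u => u * ‖F u‖ ^ 2) (Icc T (2 * T)) := by
  refine Integrable.mono' (h2.const_mul (2 * T)) ?_ ?_
  · exact (measurable_id.mul (hF.norm.pow_const 2)).aestronglyMeasurable
  · rw [ae_restrict_iff' measurableSet_Icc]
    filter_upwards with u hu
    have hu0 : 0 ≤ u := le_trans hT.le hu.1
    rw [Real.norm_eq_abs, abs_of_nonneg (by positivity)]
    exact mul_le_mul_of_nonneg_right hu.2 (by positivity)

lemma fl_sq {T : ℝ} (hT : 0 < T) (F : ℝ → ℂ) (x : ℝ) :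
    ‖fl T F x‖ ^ 2 = (T * Real.exp x) •
      (indicator (Icc T (2 * T)) (fun u => u * ‖F u‖ ^ 2) (T * Real.exp x)) := by
  rw [← sq_indicator]
  unfold fl
  rw [norm_smul, Real.norm_eq_abs, abs_of_pos (by positivity), smul_eq_mul]
  ring

lemma fl_sq_int {T : ℝ} (hT : 0 < T) {F : ℝ → ℂ} (hF : Measurable F)
    (h2 : IntegrableOn (fun t => ‖F t‖ ^ 2) (Icc T (2 * T))) :
    Integrable (fun x => ‖fl T F x‖ ^ 2) ∧
    ∫ x, ‖fl T F x‖ ^ 2 ≤ 2 * T * ∫ t in T..(2 * T), ‖F t‖ ^ 2 := by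
  have h3 : (fun x => ‖fl T F x‖ ^ 2) = fun x => (T * Real.exp x) •
      (indicator (Icc T (2 * T)) (fun u => u * ‖F u‖ ^ 2) (T * Real.exp x)) := by
    ext x
    exact fl_sq hT F x
  have hsub : Icc T (2 * T) ⊆ Ioi (0 : ℝ) := fun u hu => lt_of_lt_of_le hT hu.1
  rw [h3]
  constructor
  · exact (covI hT _).mp ((integrable_indicator_iff measurableSet_Icc).mpr (uF_int hT hF h2)).integrableOn
  · rw [← cov hT, setIntegral_indicator measurableSet_Icc, inter_eq_self_of_subset_right hsub,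
      intervalIntegral.integral_of_le (by linarith), ← integral_Icc_eq_integral_Ioc,
      ← integral_const_mul]
    refine setIntegral_mono_on (uF_int hT hF h2) (h2.const_mul (2 * T)) measurableSet_Icc ?_
    intro u hu
    exact mul_le_mul_of_nonneg_right hu.2 (by positivity)

/-! ### the operator -/

open scoped Convolution in
/-- the operator in logarithmic variables -/
def Jf (T : ℝ) (F : ℝ → ℂ) (g : ℝ → ℂ) : ℝ → ℂ :=
  (fun x => fl T F (-x)) ⋆[ContinuousLinearMap.mul ℂ ℂ] (fun x => eT T x * g x)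

lemma Jf_eq (T : ℝ) (F : ℝ → ℂ) (g : ℝ → ℂ) (s : ℝ) :
    Jf T F g s = ∫ x, fl T F x * (eT T (s + x) * g (s + x)) := by
  unfold Jf
  rw [MeasureTheory.convolution_def]
  simp only [ContinuousLinearMap.mul_apply']
  rw [← integral_neg_eq_self]
  refine integral_congr_ae (Eventually.of_forall fun x => ?_)
  simp only [neg_neg, sub_neg_eq_add]

lemma E_int {T : ℝ} (hT : 0 < T) {g : ℝ → ℂ} (hg : Continuous g) (hgc : HasCompactSupport g) :
    Integrable (fun x => eT T x * g x) ∧ ∃ M : ℝ, 0 ≤ M ∧ ∀ x, ‖eT T x * g x‖ ≤ M := by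
  have hc : Continuous (fun x => eT T x * g x) := (eT_cont hT).mul hg
  have hs : HasCompactSupport (fun x => eT T x * g x) := hgc.mul_left
  refine ⟨hc.integrable_of_hasCompactSupport hs, ?_⟩
  obtain ⟨M, hM⟩ := hc.bounded_above_of_compact_support hs
  exact ⟨M, (norm_nonneg _).trans (hM 0), hM⟩

lemma Jf_int {T : ℝ} (hT : 0 < T) {F : ℝ → ℂ} (hF : Measurable F)
    (h2 : IntegrableOn (fun t => ‖F t‖ ^ 2) (Icc T (2 * T))) {g : ℝ → ℂ} (hg : Continuous g)
    (hgc : HasCompactSupport g) : Integrable (Jf T F g) ∧ MemLp (Jf T F g) 2 := by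
  obtain ⟨hE, M, hM0, hM⟩ := E_int hT hg hgc
  have hf := fl_int hT hF h2
  have hJ : Integrable (Jf T F g) :=
    MeasureTheory.Integrable.integrable_convolution (ContinuousLinearMap.mul ℂ ℂ) hf.comp_neg hE
  refine ⟨hJ, ?_⟩
  rw [memLp_two_iff_integrable_sq_norm hJ.aestronglyMeasurable]
  have hb : ∀ s, ‖Jf T F g s‖ ≤ M * ∫ x, ‖fl T F x‖ := by
    intro s
    rw [Jf_eq, ← integral_const_mul]
    refine (norm_integral_le_integral_norm _).trans ?_
    refine integral_mono_of_nonneg (Eventually.of_forall fun x => norm_nonneg _)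
      (hf.norm.const_mul M) (Eventually.of_forall fun x => ?_)
    simp only
    rw [norm_mul, mul_comm]
    exact mul_le_mul_of_nonneg_right (hM _) (norm_nonneg _)
  refine Integrable.mono' (hJ.norm.const_mul (M * ∫ x, ‖fl T F x‖))
    (hJ.aestronglyMeasurable.norm.pow 2) (Eventually.of_forall fun s => ?_)
  rw [Real.norm_eq_abs, abs_of_nonneg (by positivity), sq]
  exact mul_le_mul_of_nonneg_right (hb s) (norm_nonneg _)

lemma Jf_sq {T Λ : ℝ} (hT : 0 < T) (hΛ : ∀ y, ‖eh T y‖ ≤ Λ) {F : ℝ → ℂ} (hF : Measurable F)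
    (h2 : IntegrableOn (fun t => ‖F t‖ ^ 2) (Icc T (2 * T))) {g : ℝ → ℂ} (hg : Continuous g)
    (hgc : HasCompactSupport g) (ψ : 𝓢(ℝ, ℂ)) (hψ : ∀ x, 𝓕 (ψ : ℝ → ℂ) x = g x) :
    ∫ s, ‖Jf T F g s‖ ^ 2 ≤ (Λ * ∫ x, ‖ψ x‖) ^ 2 * (2 * T * ∫ t in T..(2 * T), ‖F t‖ ^ 2) := by
  obtain ⟨hJ1, hJ2⟩ := Jf_int hT hF h2 hg hgc
  obtain ⟨hE, -⟩ := E_int hT hg hgc
  have hf := (fl_int hT hF h2).comp_neg
  obtain ⟨hfs, hfs'⟩ := fl_sq_int hT hF h2
  have hf2 : MemLp (fun x => fl T F (-x)) 2 := by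
    rw [memLp_two_iff_integrable_sq_norm hf.aestronglyMeasurable]
    exact hfs.comp_neg
  obtain ⟨hF2, hFe⟩ := Pool.Agent.Helper625.Planch.plancherel _ hf hf2
  rw [← (Pool.Agent.Helper625.Planch.plancherel _ hJ1 hJ2).2]
  have h5 : ∫ x, ‖fl T F (-x)‖ ^ 2 = ∫ x, ‖fl T F x‖ ^ 2 :=
    integral_neg_eq_self (fun x => ‖fl T F x‖ ^ 2) volume
  have h6 : ∫ ξ, ‖𝓕 (fun x => fl T F (-x)) ξ‖ ^ 2 ≤ 2 * T * ∫ t in T..(2 * T), ‖F t‖ ^ 2 := by
    rw [hFe, h5]
    exact hfs'
  have h7 : ∫ ξ, ‖𝓕 (Jf T F g) ξ‖ ^ 2 ≤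
      ∫ ξ, (Λ * ∫ x, ‖ψ x‖) ^ 2 * ‖𝓕 (fun x => fl T F (-x)) ξ‖ ^ 2 := by
    refine integral_mono_of_nonneg (Eventually.of_forall fun x => by positivity) ?_
      (Eventually.of_forall fun ξ => ?_)
    · exact ((memLp_two_iff_integrable_sq_norm hF2.aestronglyMeasurable).mp hF2).const_mul _
    · simp only
      have e1 : 𝓕 (Jf T F g) ξ = 𝓕 (fun x => fl T F (-x)) ξ * 𝓕 (fun x => eT T x * g x) ξ :=
        Real.fourier_mul_convolution_eq hf hE ξ
      rw [e1, norm_mul, mul_pow, mul_comm]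
      refine mul_le_mul_of_nonneg_right ?_ (by positivity)
      exact pow_le_pow_left₀ (norm_nonneg _) (four_le hT hΛ g ψ hψ ξ) 2
  refine h7.trans ?_
  rw [integral_const_mul]
  exact mul_le_mul_of_nonneg_left h6 (by positivity)

lemma Jf_log {a b T : ℝ} (ha : 0 < a) (hT : 0 < T) (F g : ℝ → ℂ)
    (hg : ∀ x, Real.log a ≤ x → x ≤ Real.log (2 * b) → ((W 1 (Real.exp x) : ℝ) : ℂ) * g x = 1)
    {β : ℝ} (hβ : a ≤ β) (hβ' : β ≤ b) :
    Jf T F g (Real.log β) = ∫ t in T..(2 * T), F t * ((Df (β * t) : ℝ) : ℂ) := by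
  have hb0 : 0 < β := lt_of_lt_of_le ha hβ
  have hsub : Icc T (2 * T) ⊆ Ioi (0 : ℝ) := fun u hu => lt_of_lt_of_le hT hu.1
  rw [Jf_eq]
  have h1 : ∀ x : ℝ, fl T F x * (eT T (Real.log β + x) * g (Real.log β + x)) =
      (T * Real.exp x) • (indicator (Icc T (2 * T)) (fun t => F t * ((Df (β * t) : ℝ) : ℂ))
        (T * Real.exp x)) := by
    intro x
    unfold fl Fi
    by_cases h : T * Real.exp x ∈ Icc T (2 * T)
    · rw [indicator_of_mem h, indicator_of_mem h]
      have hx0 : 0 ≤ x := by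
        have := h.1
        by_contra hc
        push Not at hc
        have h3 : Real.exp x < 1 := by
          rw [← Real.exp_zero]
          exact Real.exp_lt_exp.mpr hc
        nlinarith
      have hx1 : x ≤ Real.log 2 := by
        rw [Real.le_log_iff_exp_le (by norm_num)]
        have := h.2
        by_contra hc
        push Not at hc
        nlinarith
      have h4 : Real.log a ≤ Real.log β + x := by
        have := Real.log_le_log ha hβ
        linarith
      have h5 : Real.log β + x ≤ Real.log (2 * b) := by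
        rw [Real.log_mul (by norm_num) (by linarith)]
        have := Real.log_le_log hb0 hβ'
        linarith
      have h6 := hg _ h4 h5
      have h7 : eT T (Real.log β + x) * g (Real.log β + x) = ((Df (β * (T * Real.exp x)) : ℝ) : ℂ) := by
        unfold eT
        rw [Complex.ofReal_mul, mul_assoc, h6, mul_one, Real.exp_add, Real.exp_log hb0]
        congr 2
        ring
      rw [h7]
      simp only [Complex.real_smul]
      ring
    · rw [indicator_of_notMem h, indicator_of_notMem h]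
      simp
  simp_rw [h1]
  rw [← cov hT, setIntegral_indicator measurableSet_Icc, inter_eq_self_of_subset_right hsub,
    intervalIntegral.integral_of_le (by linarith), ← integral_Icc_eq_integral_Ioc]

/-- the piece `S_OP` -/
theorem t_OP : S_OP := by
  intro a b ha hab
  have hlog : Real.log a < Real.log (2 * b) := Real.log_lt_log ha (by linarith)
  obtain ⟨g, ψ, hg, hgc, hψ, hgW⟩ := exists_psi hlog
  refine ⟨2 * b * (∫ x, ‖ψ x‖) ^ 2 + 1, by
    have : 0 < b := by linarith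
    positivity, ?_⟩
  intro T Λ hT1 hΛ F hF h2
  have hT : 0 < T := by linarith
  have hb : 0 < b := by linarith
  have hI : 0 ≤ ∫ t in T..(2 * T), ‖F t‖ ^ 2 :=
    intervalIntegral.integral_nonneg (by linarith) fun t _ => by positivity
  obtain ⟨hJ1, hJ2⟩ := Jf_int hT hF h2 hg hgc
  have hJs : Integrable (fun s => ‖Jf T F g s‖ ^ 2) :=
    (memLp_two_iff_integrable_sq_norm hJ1.aestronglyMeasurable).mp hJ2
  have h3 := Jf_sq hT hΛ hF h2 hg hgc ψ hψ
  have h4 : ∫ β in a..b, ‖∫ t in T..(2 * T), F t * ((ff (β * t) - Mz (β * t) : ℝ) : ℂ)‖ ^ 2 ≤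
      b * ∫ s, ‖Jf T F g s‖ ^ 2 := by
    rw [intervalIntegral.integral_of_le hab.le]
    have e1 : ∫ β in Ioc a b, ‖∫ t in T..(2 * T), F t * ((ff (β * t) - Mz (β * t) : ℝ) : ℂ)‖ ^ 2 =
        ∫ β in Ioc a b, ‖Jf T F g (Real.log β)‖ ^ 2 := by
      refine setIntegral_congr_fun measurableSet_Ioc fun β hβ => ?_
      show _ = ‖Jf T F g (Real.log β)‖ ^ 2
      rw [Jf_log ha hT F g hgW hβ.1.le hβ.2]
      rfl
    have hsub : Ioc a b ⊆ Ioi (0 : ℝ) := fun u hu => lt_trans ha hu.1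
    rw [e1, ← inter_eq_self_of_subset_right hsub, ← setIntegral_indicator measurableSet_Ioc,
      cov one_pos, ← integral_const_mul]
    refine integral_mono_of_nonneg (Eventually.of_forall fun x => ?_) (hJs.const_mul b)
      (Eventually.of_forall fun x => ?_)
    · simp only [one_mul, smul_eq_mul]
      refine mul_nonneg (Real.exp_pos x).le (indicator_nonneg (fun _ _ => by positivity) _)
    · simp only [one_mul, smul_eq_mul]
      by_cases h : Real.exp x ∈ Ioc a b
      · rw [indicator_of_mem h, Real.log_exp]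
        exact mul_le_mul_of_nonneg_right h.2 (by positivity)
      · rw [indicator_of_notMem h, mul_zero]
        positivity
  refine h4.trans ((mul_le_mul_of_nonneg_left h3 hb.le).trans ?_)
  have h5 : 0 ≤ Λ ^ 2 * (T * ∫ t in T..(2 * T), ‖F t‖ ^ 2) := by positivity
  nlinarith

end

end Pool.Agent.K1H26.DL
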